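import Mathlib
import Pool.Agent.R274.BCPMain

namespace Pool.Agent.Results.MP_458f19_an.RenormFailsMinusOne

open Cardinal

universe u

/-- Every real normed space `X` containing an isomorphic copy of the space of absolutely summable
families on a set of cardinality the successor of `κ` has an equivalent norm `N` such that for
every set `A` of at most `κ` points there is a point `x` of the `N`-unit sphere with
`N (x - a) = N a + 1` (even `N (a + t x) = N a + |t|`) for all `a` in `A`. -/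
theorem result (κ : Cardinal.{u}) (hκ : ℵ₀ ≤ κ) (X : Type u) [NormedAddCommGroup X]
    [NormedSpace ℝ X]
    (hX : ∃ (Γ : Type u) (T : lp (fun _ : Γ => ℝ) 1 →L[ℝ] X) (c : ℝ),
      #Γ = Order.succ κ ∧ 0 < c ∧ ∀ v, c * ‖v‖ ≤ ‖T v‖) :
    ∃ N : Seminorm ℝ X, (∃ m M : ℝ, 0 < m ∧ ∀ x, m * ‖x‖ ≤ N x ∧ N x ≤ M * ‖x‖) ∧
      ∀ A : Set X, #A ≤ κ → ∃ x : X, N x = 1 ∧ (∀ a ∈ A, N (x - a) = N a + 1) ∧
        ∀ a ∈ A, ∀ t : ℝ, N (a + t • x) = N a + |t| := by
  obtain ⟨Γ, T, c, hΓ, hc, hT⟩ := hX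
  obtain ⟨N, hN, hA⟩ := Pool.Agent.R274.BCP.main hκ hΓ T hc hT
  refine ⟨N, hN, fun A h => ?_⟩
  obtain ⟨x, hx, hx2⟩ := hA A h
  refine ⟨x, hx, fun a ha => ?_, hx2⟩
  have h1 := hx2 a ha (-1)
  rw [abs_neg, abs_one] at h1
  rw [← h1, map_sub_rev]
  congr 1
  rw [neg_one_smul, sub_eq_add_neg]

end Pool.Agent.Results.MP_458f19_an.RenormFailsMinusOne
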